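import Pool.Agent.U933.EC.Defs

set_option autoImplicit false

/-! Bigraded Hilbert functions of the subvarieties of hypersurfaces in `P^1 × P^n`. -/

namespace Pool.Agent.U933.EC

open MvPolynomial

variable {n : ℕ}

lemma mem_piece {a b : ℕ} {F : S n} : F ∈ piece n a b ↔ IsForm F a b := Iff.rfl

noncomputable abbrev x0 : S n := X (Sum.inl 0)
noncomputable abbrev x1 : S n := X (Sum.inl 1)

lemma form_x0 : IsForm (x0 : S n) 1 0 := isWeightedHomogeneous_X ℂ (bideg n) (Sum.inl 0)
lemma form_x1 : IsForm (x1 : S n) 1 0 := isWeightedHomogeneous_X ℂ (bideg n) (Sum.inl 1)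
lemma form_y (j : Fin (n + 1)) : IsForm (X (Sum.inr j) : S n) 0 1 :=
  isWeightedHomogeneous_X ℂ (bideg n) (Sum.inr j)

lemma IsForm.mul {F G : S n} {a b c d : ℕ} (h : IsForm F a b) (h' : IsForm G c d) :
    IsForm (F * G) (a + c) (b + d) := IsWeightedHomogeneous.mul h h'

lemma IsForm.pow {F : S n} {a b : ℕ} (h : IsForm F a b) (k : ℕ) : IsForm (F ^ k) (k * a) (k * b) := by
  have := IsWeightedHomogeneous.pow h k
  simpa [IsForm] using this

lemma IsForm.add {F G : S n} {a b : ℕ} (h : IsForm F a b) (h' : IsForm G a b) : IsForm (F + G) a b :=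
  IsWeightedHomogeneous.add h h'

lemma IsForm.sub {F G : S n} {a b : ℕ} (h : IsForm F a b) (h' : IsForm G a b) : IsForm (F - G) a b :=
  (piece n a b).sub_mem h h'

lemma IsForm.C_mul {F : S n} {a b : ℕ} (h : IsForm F a b) (c : ℂ) : IsForm (C c * F) a b :=
  IsWeightedHomogeneous.C_mul h c

lemma form_zero (a b : ℕ) : IsForm (0 : S n) a b := (piece n a b).zero_mem

lemma form_sum {ι : Type} (s : Finset ι) (f : ι → S n) (a b : ℕ) (h : ∀ i ∈ s, IsForm (f i) a b) :
    IsForm (∑ i ∈ s, f i) a b := (piece n a b).sum_mem h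

lemma form_C (c : ℂ) : IsForm (C c : S n) 0 0 := isWeightedHomogeneous_C (bideg n) c

/-- the linear form vanishing at `(1 : s)` -/
noncomputable def ell (s : ℂ) : S n := x1 - C s * x0

lemma form_ell (s : ℂ) : IsForm (ell s : S n) 1 0 := form_x1.sub (form_x0.C_mul s)

/-- the value at `x = (1, t)`, a polynomial in `t` -/
noncomputable def toPoly : S n →ₐ[ℂ] Polynomial (S n) :=
  aeval (Sum.elim ![1, Polynomial.X] (fun j => Polynomial.C (X (Sum.inr j))))

/-- the value at `x = (1, s)` -/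
noncomputable def ev (s : ℂ) : S n →+* S n :=
  (Polynomial.evalRingHom (C s : S n)).comp (toPoly : S n →ₐ[ℂ] Polynomial (S n)).toRingHom

lemma ev_eq (s : ℂ) (f : S n) : ev s f = (toPoly f).eval (C s) := rfl

@[simp] lemma toPoly_x0 : toPoly (x0 : S n) = 1 := by simp [toPoly]
@[simp] lemma toPoly_x1 : toPoly (x1 : S n) = Polynomial.X := by simp [toPoly]
@[simp] lemma toPoly_y (j : Fin (n + 1)) : toPoly (X (Sum.inr j) : S n) = Polynomial.C (X (Sum.inr j)) := by
  simp [toPoly]
@[simp] lemma toPoly_C (c : ℂ) : toPoly (C c : S n) = Polynomial.C (C c) := by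
  have := (toPoly : S n →ₐ[ℂ] Polynomial (S n)).commutes c
  rw [MvPolynomial.algebraMap_eq] at this
  rw [this]
  rfl

@[simp] lemma ev_x0 (s : ℂ) : ev s (x0 : S n) = 1 := by simp [ev_eq]
@[simp] lemma ev_x1 (s : ℂ) : ev s (x1 : S n) = C s := by simp [ev_eq]
@[simp] lemma ev_y (s : ℂ) (j : Fin (n + 1)) : ev s (X (Sum.inr j) : S n) = X (Sum.inr j) := by simp [ev_eq]
@[simp] lemma ev_C (s : ℂ) (c : ℂ) : ev s (C c : S n) = C c := by simp [ev_eq]

lemma weight_eq (d : Var n →₀ ℕ) : Finsupp.weight (bideg n) d =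
    (d (Sum.inl 0) + d (Sum.inl 1), ∑ j, d (Sum.inr j)) := by
  rw [Finsupp.weight_apply, Finsupp.sum_fintype _ _ (by simp), Fintype.sum_sum_type]
  ext
  · simp [bideg, Prod.fst_sum]
  · simp [bideg, Prod.snd_sum]

lemma monomial_form (d : Var n →₀ ℕ) (r : ℂ) : (monomial d r : S n) =
    C r * (x0 ^ d (Sum.inl 0) * x1 ^ d (Sum.inl 1) * ∏ j, X (Sum.inr j) ^ d (Sum.inr j)) := by
  rw [monomial_eq, Finsupp.prod_fintype _ _ (by simp), Fintype.prod_sum_type, Fin.prod_univ_two]

lemma form_prod_y (d : Fin (n + 1) → ℕ) : IsForm (∏ j, X (Sum.inr j) ^ d j : S n) 0 (∑ j, d j) := by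
  have := IsWeightedHomogeneous.prod (R := ℂ) (w := bideg n) Finset.univ
    (fun j : Fin (n + 1) => (X (Sum.inr j) : S n) ^ d j) (fun j => (0, d j)) (fun j _ => by
      have h1 := (form_y (n := n) j).pow (d j)
      have h2 : IsForm ((X (Sum.inr j) : S n) ^ d j) 0 (d j) := by simpa using h1
      exact h2)
  have h2 : ∑ j, ((0 : ℕ), d j) = (0, ∑ j, d j) := by
    ext
    · simp [Prod.fst_sum]
    · simp [Prod.snd_sum]
  rw [h2] at this
  exact this

lemma decomp (s : ℂ) {a b : ℕ} {f : S n} (hf : IsForm f a b) :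
    IsForm (ev s f) 0 b ∧ ∃ g, IsForm g (a - 1) b ∧ f = x0 ^ a * ev s f + ell s * g := by
  refine IsWeightedHomogeneous.induction_on (motive := fun f _ => IsForm (ev s f) 0 b ∧
    ∃ g, IsForm g (a - 1) b ∧ f = x0 ^ a * ev s f + ell s * g) ?_ ?_ ?_ hf
  · refine ⟨by rw [map_zero]; exact form_zero _ _, 0, form_zero _ _, by simp⟩
  · rintro p q - - ⟨h1, g, h2, h3⟩ ⟨h1', g', h2', h3'⟩
    refine ⟨by rw [map_add]; exact h1.add h1', g + g', h2.add h2', ?_⟩
    rw [map_add]
    linear_combination h3 + h3'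
  · intro d r hd
    rw [weight_eq, Prod.mk.injEq] at hd
    obtain ⟨hi, hb⟩ := hd
    rw [monomial_form]
    set i := d (Sum.inl 0) with hi'
    set j := d (Sum.inl 1) with hj'
    have hY := form_prod_y (n := n) (fun j => d (Sum.inr j))
    rw [hb] at hY
    set Y : S n := ∏ j, X (Sum.inr j) ^ d (Sum.inr j) with hYdef
    have hevY : ev s Y = Y := by rw [hYdef, map_prod]; simp
    have hev : ev s (C r * (x0 ^ i * x1 ^ j * Y)) = C r * (C s ^ j * Y) := by
      simp [hevY]
    rw [hev]
    have hform : IsForm (C r * (C s ^ j * Y)) 0 b := by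
      have := ((form_C (n := n) s).pow j).mul hY
      simpa using this.C_mul r
    refine ⟨hform, ?_⟩
    -- `x1 ^ j - (s x0) ^ j = ell s * (...)`
    obtain ⟨g, hg, hg2⟩ : ∃ g : S n, IsForm g (j - 1) 0 ∧ x1 ^ j = (C s * x0) ^ j + ell s * g := by
      refine ⟨∑ k ∈ Finset.range j, x1 ^ k * (C s * x0) ^ (j - 1 - k), form_sum _ _ _ _ ?_, ?_⟩
      · intro k hk
        rw [Finset.mem_range] at hk
        have h1 := ((form_x1 (n := n)).pow k).mul ((form_x0.C_mul s).pow (j - 1 - k))
        have e1 : k * 1 + (j - 1 - k) * 1 = j - 1 := by omega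
        rw [e1] at h1
        simpa using h1
      · have := (Commute.all (x1 : S n) (C s * x0)).geom_sum₂_mul j
        rw [ell]
        linear_combination -this
    refine ⟨C r * (x0 ^ i * g * Y), ?_, ?_⟩
    · rcases Nat.eq_zero_or_pos j with h0 | h0
      · have : g = 0 ∨ True := Or.inr trivial
        have h1 : x1 ^ j = (C s * x0 : S n) ^ j := by rw [h0]; simp
        have h2 : ell s * g = (0 : S n) := by
          rw [h1] at hg2
          linear_combination -hg2
        have hne : (ell s : S n) ≠ 0 := by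
          intro h
          have h3 := congrArg (ev (s + 1)) h
          simp [ell] at h3
        have hg0 : g = 0 := (mul_eq_zero.1 h2).resolve_left hne
        rw [hg0]
        simpa using form_zero (n := n) (a - 1) b
      · have h1 := (((form_x0 (n := n)).pow i).mul hg).mul hY
        have e1 : i * 1 + (j - 1) + 0 = a - 1 := by omega
        rw [e1] at h1
        simpa using h1.C_mul r
    · rw [hg2, ← hi]
      ring

/-- multiplication with `F(s, y) / ell s` on the coordinate ring of a subvariety of `F = 0` -/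
lemma shift {P : Ideal (S n)} {F : S n} {m e : ℕ} (hF : IsForm F m e) (hm : 1 ≤ m) (hFP : F ∈ P) (s : ℂ)
    {a b : ℕ} (ha : m ≤ a) {f : S n} (hf : IsForm f a b) :
    ∃ g : S n, IsForm g (a - 1) (b + e) ∧ f * ev s F - ell s * g ∈ P := by
  obtain ⟨h1, g, h2, h3⟩ := decomp s hf
  obtain ⟨k1, G, k2, k3⟩ := decomp s hF
  refine ⟨g * ev s F - x0 ^ (a - m) * ev s f * G, ?_, ?_⟩
  · apply IsForm.sub
    · have := h2.mul k1
      simpa using this
    · have h4 := (((form_x0 (n := n)).pow (a - m)).mul h1).mul k2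
      have e1 : (a - m) * 1 + 0 + (m - 1) = a - 1 := by omega
      rw [e1] at h4
      simpa using h4
  · have h5 : f * ev s F - ell s * (g * ev s F - x0 ^ (a - m) * ev s f * G) =
        (x0 ^ (a - m) * ev s f) * F := by
      have h6 : (x0 : S n) ^ a = x0 ^ (a - m) * x0 ^ m := by rw [← pow_add]; congr 1; omega
      have h7 : f * ev s F = (x0 ^ (a - m) * x0 ^ m * ev s f + ell s * g) * ev s F := by
        rw [← h6, ← h3]
      rw [h7]
      linear_combination (-(x0 ^ (a - m) * ev s f)) * k3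
    rw [h5]
    exact P.mul_mem_left _ hFP

instance finite_piece (a b : ℕ) : FiniteDimensional ℂ (piece n a b) := by
  have h1 : (weightedHomogeneousSubmodule ℂ (fun _ : Var n => 1) (a + b)).FG :=
    weightedHomogeneousSubmodule_fg ℂ _ (fun _ => one_ne_zero) _
  have h2 : piece n a b ≤ weightedHomogeneousSubmodule ℂ (fun _ : Var n => 1) (a + b) := by
    intro f hf d hd
    have h3 := hf hd
    rw [weight_eq, Prod.mk.injEq] at h3
    rw [Finsupp.weight_apply, Finsupp.sum_fintype _ _ (by simp), Fintype.sum_sum_type]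
    simp [Fin.sum_univ_two, h3.1, h3.2]
  have : FiniteDimensional ℂ (weightedHomogeneousSubmodule ℂ (fun _ : Var n => 1) (a + b)) :=
    Module.Finite.iff_fg.2 h1
  exact Submodule.finiteDimensional_of_le h2

lemma hilb_le {P : Ideal (S n)} (hP : P.IsPrime) {F : S n} {m e : ℕ} (hF : IsForm F m e) (hm : 1 ≤ m)
    (hFP : F ∈ P) (s : ℂ) (hs : ell s ∉ P) (hs2 : ev s F ∉ P) {a b : ℕ} (ha : m ≤ a) :
    hilb P a b ≤ hilb P (a - 1) (b + e) := by
  have := hP
  set π : S n →ₐ[ℂ] (S n ⧸ P) := Ideal.Quotient.mkₐ ℂ P with hπ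
  have hu : π (ev s F) ≠ 0 := by
    intro h
    exact hs2 (Ideal.Quotient.eq_zero_iff_mem.1 h)
  have hv : π (ell s) ≠ 0 := by
    intro h
    exact hs (Ideal.Quotient.eq_zero_iff_mem.1 h)
  set V := (piece n a b).map π.toLinearMap with hV
  set W := (piece n (a - 1) (b + e)).map π.toLinearMap with hW
  have iu : Function.Injective (LinearMap.mulLeft ℂ (π (ev s F))) := by
    intro x y hxy
    exact mul_left_cancel₀ hu hxy
  have iv : Function.Injective (LinearMap.mulLeft ℂ (π (ell s))) := by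
    intro x y hxy
    exact mul_left_cancel₀ hv hxy
  have hle : V.map (LinearMap.mulLeft ℂ (π (ev s F))) ≤ W.map (LinearMap.mulLeft ℂ (π (ell s))) := by
    rintro _ ⟨_, ⟨f, hf, rfl⟩, rfl⟩
    obtain ⟨g, hg, hfg⟩ := shift hF hm hFP s ha hf
    refine ⟨π g, ⟨g, hg, rfl⟩, ?_⟩
    have h1 : π (f * ev s F - ell s * g) = 0 := Ideal.Quotient.eq_zero_iff_mem.2 hfg
    rw [map_sub, map_mul, map_mul, sub_eq_zero] at h1
    change π (ell s) * π g = π (ev s F) * π f
    rw [← h1, mul_comm]
  have e1 : Module.finrank ℂ (V.map (LinearMap.mulLeft ℂ (π (ev s F)))) = Module.finrank ℂ V :=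
    (LinearEquiv.finrank_eq (Submodule.equivMapOfInjective _ iu V)).symm
  have e2 : Module.finrank ℂ (W.map (LinearMap.mulLeft ℂ (π (ell s)))) = Module.finrank ℂ W :=
    (LinearEquiv.finrank_eq (Submodule.equivMapOfInjective _ iv W)).symm
  have h3 := Submodule.finrank_mono hle
  rw [e1, e2] at h3
  exact h3

/-- if the coefficients of `F` with respect to `x` have no common zero, then two of the conditions hold for some `s` -/
lemma exists_s {P : Ideal (S n)} (hP : P.IsPrime) {F : S n}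
    (hx : ∃ i, (X (Sum.inl i) : S n) ∉ P) (hy : ∃ j, (X (Sum.inr j) : S n) ∉ P)
    (hF : ∀ j, ∃ N : ℕ, (X (Sum.inr j) : S n) ^ N ∈ Ideal.span (Set.range fun i => (toPoly F).coeff i)) :
    ∃ s : ℂ, ell s ∉ P ∧ ev s F ∉ P := by
  have := hP
  by_contra hcon
  push Not at hcon
  -- at most one `ell s` is in `P`
  have h1 : {s : ℂ | (ell s : S n) ∈ P}.Subsingleton := by
    intro s hs t ht
    by_contra hne
    have h2 : (x0 : S n) ∈ P := by
      have h3 : (ell s : S n) - ell t ∈ P := P.sub_mem hs ht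
      have h4 : (x0 : S n) = C (t - s)⁻¹ * (ell s - ell t) := by
        have h5 : (C (t - s)⁻¹ : S n) * C (t - s) = 1 := by
          rw [← C_mul, inv_mul_cancel₀ (sub_ne_zero.2 (Ne.symm hne)), C_1]
        have h6 : (ell s : S n) - ell t = C (t - s) * x0 := by
          rw [ell, ell, C_sub]; ring
        rw [h6, ← mul_assoc, h5, one_mul]
      rw [h4]
      exact P.mul_mem_left _ h3
    have h3 : (x1 : S n) ∈ P := by
      have h4 : (x1 : S n) = ell s + C s * x0 := by rw [ell]; ring
      rw [h4]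
      exact P.add_mem hs (P.mul_mem_left _ h2)
    obtain ⟨i, hi⟩ := hx
    fin_cases i
    · exact hi h2
    · exact hi h3
  have h2 : {s : ℂ | (ell s : S n) ∈ P}ᶜ.Infinite := h1.finite.infinite_compl
  set q : Polynomial (S n ⧸ P) := (toPoly F).map (Ideal.Quotient.mk P) with hq
  have hq0 : q = 0 := by
    apply Polynomial.eq_zero_of_infinite_isRoot
    have hinj : Function.Injective (fun s : ℂ => (Ideal.Quotient.mk P) (C s : S n)) := by
      have : Function.Injective ((Ideal.Quotient.mk P).comp (C : ℂ →+* S n)) := RingHom.injective _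
      exact this
    refine (h2.image hinj.injOn).mono ?_
    rintro _ ⟨s, hs, rfl⟩
    have h3 := hcon s hs
    change Polynomial.IsRoot q _
    rw [Polynomial.IsRoot, hq, Polynomial.eval_map, Polynomial.eval₂_hom, ← ev_eq]
    exact Ideal.Quotient.eq_zero_iff_mem.2 h3
  obtain ⟨j, hj⟩ := hy
  obtain ⟨N, hN⟩ := hF j
  apply hj
  apply hP.mem_of_pow_mem N
  refine (Ideal.span_le.2 ?_) hN
  rintro _ ⟨i, rfl⟩
  have h4 := congrArg (fun r => r.coeff i) hq0
  simp only [hq, Polynomial.coeff_map, Polynomial.coeff_zero] at h4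
  exact Ideal.Quotient.eq_zero_iff_mem.1 h4

end Pool.Agent.U933.EC
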