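import Pool.Agent.U933.EC.Defs

set_option autoImplicit false

/-! The leading coefficients of the Hilbert polynomials. -/

namespace Pool.Agent.U933.EC

open MvPolynomial Filter Topology

lemma tend_ratio (e : ℕ) : Tendsto (fun b : ℕ => ((b : ℝ) + e) / b) atTop (𝓝 1) := by
  have h1 : Tendsto (fun b : ℕ => 1 + (e : ℝ) / b) atTop (𝓝 (1 + 0)) :=
    tendsto_const_nhds.add (tendsto_const_div_atTop_nhds_zero_nat _)
  rw [add_zero] at h1
  refine h1.congr' ?_
  filter_upwards [eventually_gt_atTop 0] with b hb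
  have : (b : ℝ) ≠ 0 := by positivity
  field_simp

lemma T1 (e j r : ℕ) (hj : j ≤ r) :
    Tendsto (fun b : ℕ => ((b : ℝ) + e) ^ j / (b : ℝ) ^ r) atTop (𝓝 (if j = r then 1 else 0)) := by
  have h1 : Tendsto (fun b : ℕ => (((b : ℝ) + e) / b) ^ j * (1 / (b : ℝ)) ^ (r - j)) atTop
      (𝓝 (1 ^ j * 0 ^ (r - j))) := ((tend_ratio e).pow j).mul (tendsto_one_div_atTop_nhds_zero_nat.pow _)
  have h2 : (1 : ℝ) ^ j * 0 ^ (r - j) = if j = r then 1 else 0 := by
    split_ifs with h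
    · subst h; simp
    · have : r - j ≠ 0 := by omega
      simp [this]
  rw [h2] at h1
  refine h1.congr' ?_
  filter_upwards [eventually_gt_atTop 0] with b hb
  have hb' : (b : ℝ) ≠ 0 := by positivity
  have h3 : (b : ℝ) ^ r = (b : ℝ) ^ j * (b : ℝ) ^ (r - j) := by rw [← pow_add]; congr 1; omega
  rw [h3, div_pow, div_pow, one_pow]
  field_simp

lemma T3 (e k : ℕ) (hk : 1 ≤ k) :
    Tendsto (fun b : ℕ => (((b : ℝ) + e) ^ k - (b : ℝ) ^ k) / (b : ℝ) ^ (k - 1)) atTop (𝓝 (e * k)) := by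
  have h1 : Tendsto (fun b : ℕ => ∑ i ∈ Finset.range k, (((b : ℝ) + e) / b) ^ i) atTop
      (𝓝 (∑ _i ∈ Finset.range k, (1 : ℝ))) := by
    apply tendsto_finsetSum
    intro i _
    have := (tend_ratio e).pow i
    rwa [one_pow] at this
  have h2 := h1.const_mul (e : ℝ)
  simp only [Finset.sum_const, Finset.card_range, nsmul_eq_mul, mul_one] at h2
  refine h2.congr' ?_
  filter_upwards [eventually_gt_atTop 0] with b hb
  have hb' : (b : ℝ) ≠ 0 := by positivity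
  have h3 := (Commute.all ((b : ℝ) + e) (b : ℝ)).geom_sum₂_mul k
  rw [← h3, add_sub_cancel_left, Finset.sum_mul, Finset.sum_div, Finset.mul_sum]
  refine Finset.sum_congr rfl (fun i hi => ?_)
  rw [Finset.mem_range] at hi
  have h4 : (b : ℝ) ^ (k - 1) = (b : ℝ) ^ i * (b : ℝ) ^ (k - 1 - i) := by
    rw [← pow_add]; congr 1; omega
  rw [h4, div_pow]
  field_simp

lemma TQ (Q : MvPolynomial (Fin 2) ℝ) (k : ℕ) (hQ : Q.totalDegree < k) (a a' : ℝ) (e : ℕ) :
    Tendsto (fun b : ℕ => (eval ![a', (b : ℝ) + e] Q - eval ![a, (b : ℝ)] Q) / (b : ℝ) ^ (k - 1)) atTop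
      (𝓝 0) := by
  have h0 : ∀ b : ℕ, (eval ![a', (b : ℝ) + e] Q - eval ![a, (b : ℝ)] Q) / (b : ℝ) ^ (k - 1) =
      ∑ d ∈ Q.support, Q.coeff d * (a' ^ d 0 * (((b : ℝ) + e) ^ d 1 / (b : ℝ) ^ (k - 1)) -
        a ^ d 0 * (((b : ℝ) + (0 : ℕ)) ^ d 1 / (b : ℝ) ^ (k - 1))) := by
    intro b
    rw [eval_eq', eval_eq', ← Finset.sum_sub_distrib, Finset.sum_div]
    refine Finset.sum_congr rfl (fun d _ => ?_)
    rw [Fin.prod_univ_two, Fin.prod_univ_two]
    simp only [Matrix.cons_val_zero, Matrix.cons_val_one, Nat.cast_zero, add_zero]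
    ring
  simp_rw [h0]
  have h1 : (0 : ℝ) = ∑ d ∈ Q.support, (0 : ℝ) := by simp
  rw [h1]
  apply tendsto_finsetSum
  intro d hd
  have hdeg : d 0 + d 1 < k := by
    have h2 := le_totalDegree hd
    rw [Finsupp.sum_fintype _ _ (by simp), Fin.sum_univ_two] at h2
    omega
  have hle : d 1 ≤ k - 1 := by omega
  have h3 := ((T1 e (d 1) (k - 1) hle).const_mul (a' ^ d 0)).sub
    ((T1 0 (d 1) (k - 1) hle).const_mul (a ^ d 0))
  have h4 := h3.const_mul (Q.coeff d)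
  convert h4 using 2
  split_ifs with h
  · have : d 0 = 0 := by omega
    simp [this]
  · simp

lemma leading_le {H : ℕ → ℕ → ℕ} {k : ℕ} (hk : 1 ≤ k) {u v : ℝ} (hH : Leading H k u v) {m e : ℕ}
    (h : ∀ a b : ℕ, m ≤ a → H a b ≤ H (a - 1) (b + e)) : u ≤ e * v := by
  obtain ⟨Q, hQ, N, hN⟩ := hH
  set a := m + N + 1 with ha
  have h1 : ∀ᶠ b : ℕ in atTop, (0 : ℝ) ≤
      u / (k - 1).factorial * ((a - 1 : ℕ) * (((b : ℝ) + e) ^ (k - 1) / (b : ℝ) ^ (k - 1)) -
        a * (((b : ℝ) + (0 : ℕ)) ^ (k - 1) / (b : ℝ) ^ (k - 1))) +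
      v / k.factorial * ((((b : ℝ) + e) ^ k - (b : ℝ) ^ k) / (b : ℝ) ^ (k - 1)) +
      (eval ![((a - 1 : ℕ) : ℝ), (b : ℝ) + e] Q - eval ![(a : ℝ), (b : ℝ)] Q) / (b : ℝ) ^ (k - 1) := by
    filter_upwards [eventually_gt_atTop N] with b hb
    have h2 : (H a b : ℝ) ≤ H (a - 1) (b + e) := by exact_mod_cast h a b (by omega)
    rw [hN a b (by omega) (by omega), hN (a - 1) (b + e) (by omega) (by omega)] at h2
    have hb0 : (0 : ℝ) < b := by exact_mod_cast (by omega : 0 < b)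
    have h3 : (0 : ℝ) ≤ ((u * (((a - 1 : ℕ) : ℝ) * (((b + e : ℕ) : ℝ)) ^ (k - 1) / (k - 1).factorial) +
      v * ((((b + e : ℕ) : ℝ)) ^ k / k.factorial) + eval ![((a - 1 : ℕ) : ℝ), ((b + e : ℕ) : ℝ)] Q) -
      (u * (a * (b : ℝ) ^ (k - 1) / (k - 1).factorial) + v * ((b : ℝ) ^ k / k.factorial) +
      eval ![(a : ℝ), (b : ℝ)] Q)) / (b : ℝ) ^ (k - 1) := by
      apply div_nonneg (by linarith) (by positivity)
    refine h3.trans (le_of_eq ?_)
    push_cast
    rw [add_zero]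
    ring
  have h5 := (((((T1 e (k - 1) (k - 1) le_rfl).const_mul (((a - 1 : ℕ) : ℝ))).sub
    ((T1 0 (k - 1) (k - 1) le_rfl).const_mul (a : ℝ))).const_mul (u / (k - 1).factorial)).add
    ((T3 e k hk).const_mul (v / k.factorial))).add (TQ Q k hQ (a : ℝ) ((a - 1 : ℕ) : ℝ) e)
  have h6 := ge_of_tendsto h5 h1
  simp only [if_true, mul_one, add_zero] at h6
  have h7 : ((a - 1 : ℕ) : ℝ) - a = -1 := by
    have : ((a - 1 : ℕ) : ℝ) = a - 1 := by
      rw [Nat.cast_sub (by omega)]; simp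
    rw [this]; ring
  rw [h7] at h6
  have h8 : (k.factorial : ℝ) = k * (k - 1).factorial := by
    exact_mod_cast (Nat.mul_factorial_pred (by omega)).symm
  have h9 : (0 : ℝ) < (k - 1).factorial := by exact_mod_cast Nat.factorial_pos _
  have h10 : (0 : ℝ) < k := by exact_mod_cast (by omega : 0 < k)
  rw [h8] at h6
  have h11 : v / (k * (k - 1).factorial) * (e * k) = v * e / (k - 1).factorial := by
    field_simp
  rw [h11] at h6
  have h12 : u / (k - 1).factorial * -1 + v * e / (k - 1).factorial = (e * v - u) / (k - 1).factorial := by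
    ring
  rw [h12] at h6
  have h13 := (le_div_iff₀ h9).1 h6
  linarith

end Pool.Agent.U933.EC
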