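import Pool.Agent.U933.EC.A
import Pool.Agent.U933.EC.B

set_option autoImplicit false

/-! The class of `P^1 × P^r` in `P^1 × P^n`. -/

namespace Pool.Agent.U933.EC

open MvPolynomial

variable {n r : ℕ}

/-- the restriction to `P^1 × P^r` -/
noncomputable def rest (n r : ℕ) : S n →ₐ[ℂ] S r :=
  aeval (Sum.elim (fun i => X (Sum.inl i))
    (fun j => if h : (j : ℕ) < r + 1 then X (Sum.inr ⟨j, h⟩) else 0))

@[simp] lemma rest_x (i : Fin 2) : rest n r (X (Sum.inl i)) = X (Sum.inl i) := by simp [rest]

lemma rest_y (j : Fin (n + 1)) : rest n r (X (Sum.inr j)) =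
    if h : (j : ℕ) < r + 1 then X (Sum.inr ⟨j, h⟩) else 0 := by simp [rest]

/-- the section of the restriction -/
noncomputable def sect (h : r ≤ n) : S r →ₐ[ℂ] S n :=
  aeval (Sum.elim (fun i => X (Sum.inl i)) (fun j => X (Sum.inr ⟨(j : ℕ), by omega⟩)))

lemma rest_sect (h : r ≤ n) (f : S r) : rest n r (sect h f) = f := by
  have h1 : (rest n r).comp (sect h) = AlgHom.id ℂ (S r) := by
    apply MvPolynomial.algHom_ext
    rintro (i | j)
    · simp [sect]
    · simp only [sect, AlgHom.comp_apply, aeval_X, Sum.elim_inr, rest_y, AlgHom.id_apply]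
      rw [dif_pos (by omega)]
  exact congrArg (fun φ : S r →ₐ[ℂ] S r => φ f) h1

lemma form_rest {a b : ℕ} {f : S n} (hf : IsForm f a b) : IsForm (rest n r f) a b := by
  refine IsWeightedHomogeneous.induction_on (motive := fun f _ => IsForm (rest n r f) a b) ?_ ?_ ?_ hf
  · rw [map_zero]; exact form_zero _ _
  · intro p q _ _ h1 h2
    rw [map_add]; exact h1.add h2
  · intro d c hd
    rw [weight_eq, Prod.mk.injEq] at hd
    rw [monomial_form]
    have h1 : IsForm (rest n r (∏ j, X (Sum.inr j) ^ d (Sum.inr j))) 0 (∑ j, d (Sum.inr j)) := by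
      rw [map_prod]
      have h2 := IsWeightedHomogeneous.prod (R := ℂ) (w := bideg r) Finset.univ
        (fun j : Fin (n + 1) => rest n r ((X (Sum.inr j) : S n) ^ d (Sum.inr j)))
        (fun j => (0, d (Sum.inr j))) (fun j _ => by
        rw [map_pow, rest_y]
        split_ifs with h
        · have h3 := (form_y (n := r) ⟨j, h⟩).pow (d (Sum.inr j))
          have h4 : IsForm ((X (Sum.inr ⟨j, h⟩) : S r) ^ d (Sum.inr j)) 0 (d (Sum.inr j)) := by
            simpa using h3
          exact h4
        · rcases Nat.eq_zero_or_pos (d (Sum.inr j)) with h0 | h0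
          · rw [h0, pow_zero]
            exact isWeightedHomogeneous_one ℂ (bideg r)
          · rw [zero_pow (by omega)]
            exact form_zero _ _)
      have h3 : ∑ j, ((0 : ℕ), d (Sum.inr j)) = (0, ∑ j : Fin (n + 1), d (Sum.inr j)) := by
        ext
        · simp [Prod.fst_sum]
        · simp [Prod.snd_sum]
      rw [h3] at h2
      exact h2
    rw [map_mul, map_mul, map_mul, map_pow, map_pow, rest_x, rest_x, MvPolynomial.algHom_C]
    have h5 := ((((form_x0 (n := r)).pow (d (Sum.inl 0))).mul ((form_x1 (n := r)).pow (d (Sum.inl 1)))).mul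
      h1).C_mul c
    have e1 : d (Sum.inl 0) * 1 + d (Sum.inl 1) * 1 + 0 = a := by omega
    have e2 : d (Sum.inl 0) * 0 + d (Sum.inl 1) * 0 + ∑ j, d (Sum.inr j) = b := by omega
    rw [e1, e2] at h5
    exact h5

lemma form_sect (h : r ≤ n) {a b : ℕ} {f : S r} (hf : IsForm f a b) : IsForm (sect h f) a b := by
  refine IsWeightedHomogeneous.induction_on (motive := fun f _ => IsForm (sect h f) a b) ?_ ?_ ?_ hf
  · rw [map_zero]; exact form_zero _ _
  · intro p q _ _ h1 h2
    rw [map_add]; exact h1.add h2
  · intro d c hd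
    rw [weight_eq, Prod.mk.injEq] at hd
    rw [monomial_form]
    have h1 : IsForm (sect h (∏ j, X (Sum.inr j) ^ d (Sum.inr j))) 0 (∑ j, d (Sum.inr j)) := by
      rw [map_prod]
      have h2 := IsWeightedHomogeneous.prod (R := ℂ) (w := bideg n) Finset.univ
        (fun j : Fin (r + 1) => sect h ((X (Sum.inr j) : S r) ^ d (Sum.inr j)))
        (fun j => (0, d (Sum.inr j))) (fun j _ => by
        have h3 := (form_y (n := n) ⟨(j : ℕ), by omega⟩).pow (d (Sum.inr j))
        have h4 : IsForm ((X (Sum.inr ⟨(j : ℕ), by omega⟩) : S n) ^ d (Sum.inr j)) 0 (d (Sum.inr j)) := by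
          simpa using h3
        rw [map_pow]
        have h5 : sect h (X (Sum.inr j)) = (X (Sum.inr ⟨(j : ℕ), by omega⟩) : S n) := by simp [sect]
        rw [h5]
        exact h4)
      have h3 : ∑ j, ((0 : ℕ), d (Sum.inr j)) = (0, ∑ j : Fin (r + 1), d (Sum.inr j)) := by
        ext
        · simp [Prod.fst_sum]
        · simp [Prod.snd_sum]
      rw [h3] at h2
      exact h2
    have hx : ∀ i, sect h (X (Sum.inl i)) = (X (Sum.inl i) : S n) := by intro i; simp [sect]
    rw [map_mul, map_mul, map_mul, map_pow, map_pow, hx, hx, MvPolynomial.algHom_C]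
    have h5 := ((((form_x0 (n := n)).pow (d (Sum.inl 0))).mul ((form_x1 (n := n)).pow (d (Sum.inl 1)))).mul
      h1).C_mul c
    have e1 : d (Sum.inl 0) * 1 + d (Sum.inl 1) * 1 + 0 = a := by omega
    have e2 : d (Sum.inl 0) * 0 + d (Sum.inl 1) * 0 + ∑ j, d (Sum.inr j) = b := by omega
    rw [e1, e2] at h5
    exact h5

/-- the components of an element of the kernel are in the kernel -/
lemma rest_comp (f : S n) (hf : rest n r f = 0) (d : ℕ × ℕ) :
    rest n r (weightedHomogeneousComponent (bideg n) d f) = 0 := by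
  have h1 : ∀ g : S n, rest n r (weightedHomogeneousComponent (bideg n) d g) =
      weightedHomogeneousComponent (bideg r) d (rest n r g) := by
    intro g
    induction g using MvPolynomial.induction_on' with
    | monomial u c =>
      have h2 : IsForm (monomial u c : S n) (Finsupp.weight (bideg n) u).1 (Finsupp.weight (bideg n) u).2 :=
        isWeightedHomogeneous_monomial _ _ _ rfl
      have h3 := form_rest (r := r) h2
      by_cases hd : Finsupp.weight (bideg n) u = d
      · rw [IsWeightedHomogeneous.weightedHomogeneousComponent_same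
            (p := monomial u c) (m := d) (w := bideg n) (by rw [← hd]; exact h2),
          IsWeightedHomogeneous.weightedHomogeneousComponent_same
            (m := d) (w := bideg r) (by rw [← hd]; exact h3)]
      · rw [IsWeightedHomogeneous.weightedHomogeneousComponent_ne (m := Finsupp.weight (bideg n) u)
            (w := bideg n) d h2 (fun h => hd h.symm), map_zero,
          IsWeightedHomogeneous.weightedHomogeneousComponent_ne (m := Finsupp.weight (bideg n) u)
            (w := bideg r) d h3 (fun h => hd h.symm)]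
    | add p q hp hq => rw [map_add, map_add, map_add, map_add, hp, hq]
  rw [h1, hf, map_zero]

/-- `P^1 × P^r` -/
noncomputable def lin (n r : ℕ) : Subvariety n where
  ideal := RingHom.ker (rest n r)
  prime := RingHom.ker_isPrime _
  homogeneous f hf d := rest_comp f hf d
  x_notMem := ⟨0, by rw [RingHom.mem_ker, rest_x]; exact X_ne_zero _⟩
  y_notMem := ⟨0, by
    rw [RingHom.mem_ker, rest_y, dif_pos (by simp)]; exact X_ne_zero _⟩

lemma hilb_lin (h : r ≤ n) (a b : ℕ) : hilb (lin n r).ideal a b = Module.finrank ℂ (piece r a b) := by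
  have h1 : (piece n a b).map (rest n r).toLinearMap = piece r a b := by
    apply le_antisymm
    · rintro _ ⟨f, hf, rfl⟩
      exact form_rest hf
    · intro f hf
      exact ⟨sect h f, form_sect h hf, rest_sect h f⟩
  set κ : (S n ⧸ (lin n r).ideal) →ₐ[ℂ] S r := Ideal.Quotient.liftₐ (RingHom.ker (rest n r)) (rest n r)
    (fun a ha => ha) with hκ
  have hκi : Function.Injective κ.toLinearMap := by
    have := RingHom.kerLift_injective (rest n r : S n →+* S r)
    intro x y hxy
    exact this hxy
  have h2 : ((piece n a b).map (Ideal.Quotient.mkₐ ℂ (lin n r).ideal).toLinearMap).map κ.toLinearMap =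
      (piece n a b).map (rest n r).toLinearMap := by
    rw [← Submodule.map_comp]
    rfl
  rw [hilb, ← h1, ← h2]
  exact LinearEquiv.finrank_eq (Submodule.equivMapOfInjective _ hκi _)

lemma card_anti (m b : ℕ) : (Finset.piAntidiag (Finset.univ : Finset (Fin (m + 1))) b).card =
    (b + m).choose m := by
  rw [← Finset.map_sym_eq_piAntidiag, Finset.card_map]
  have h1 : (Finset.univ : Finset (Fin (m + 1))).sym b = Finset.univ := by
    rw [Finset.sym_univ]
  rw [h1, Finset.card_univ, Sym.card_sym_eq_multichoose, Fintype.card_fin, Nat.multichoose_eq]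
  have e1 : m + 1 + b - 1 = b + m := by omega
  rw [e1, Nat.choose_symm_add]

/-- the exponent with the given parts -/
noncomputable def idx {m : ℕ} (p q : ℕ) (g : Fin (m + 1) → ℕ) : Var m →₀ ℕ :=
  Finsupp.equivFunOnFinite.symm (Sum.elim ![p, q] g)

@[simp] lemma idx_0 {m : ℕ} (p q : ℕ) (g : Fin (m + 1) → ℕ) : idx p q g (Sum.inl 0) = p := rfl
@[simp] lemma idx_1 {m : ℕ} (p q : ℕ) (g : Fin (m + 1) → ℕ) : idx p q g (Sum.inl 1) = q := rfl
@[simp] lemma idx_y {m : ℕ} (p q : ℕ) (g : Fin (m + 1) → ℕ) (j : Fin (m + 1)) :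
    idx p q g (Sum.inr j) = g j := rfl

lemma idx_eq {m : ℕ} (d : Var m →₀ ℕ) :
    idx (d (Sum.inl 0)) (d (Sum.inl 1)) (fun j => d (Sum.inr j)) = d := by
  ext (i | j)
  · fin_cases i <;> rfl
  · rfl

noncomputable def expEquiv (m a b : ℕ) : {d : Var m →₀ ℕ | Finsupp.weight (bideg m) d = (a, b)} ≃
    (↥(Finset.HasAntidiagonal.antidiagonal a) × ↥(Finset.piAntidiag (Finset.univ : Finset (Fin (m + 1))) b)) where
  toFun d := (⟨(d.1 (Sum.inl 0), d.1 (Sum.inl 1)), by
      have h := d.2
      rw [Set.mem_ofPred_eq, weight_eq, Prod.mk.injEq] at h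
      rw [Finset.HasAntidiagonal.mem_antidiagonal]; exact h.1⟩,
    ⟨fun j => d.1 (Sum.inr j), by
      have h := d.2
      rw [Set.mem_ofPred_eq, weight_eq, Prod.mk.injEq] at h
      rw [Finset.mem_piAntidiag]
      exact ⟨h.2, fun _ _ => Finset.mem_univ _⟩⟩)
  invFun x := ⟨idx x.1.1.1 x.1.1.2 x.2.1, by
    have h1 := Finset.HasAntidiagonal.mem_antidiagonal.1 x.1.2
    have h2 := (Finset.mem_piAntidiag.1 x.2.2).1
    rw [Set.mem_ofPred_eq, weight_eq, Prod.mk.injEq]
    exact ⟨h1, h2⟩⟩
  left_inv d := by
    apply Subtype.ext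
    exact idx_eq d.1
  right_inv x := by
    rfl

lemma finrank_piece (m a b : ℕ) : Module.finrank ℂ (piece m a b) = (a + 1) * (b + m).choose m := by
  have h1 : piece m a b = restrictSupport ℂ {d : Var m →₀ ℕ | Finsupp.weight (bideg m) d = (a, b)} :=
    weightedHomogeneousSubmodule_eq_finsupp_supported ℂ (bideg m) (a, b)
  rw [h1, Module.finrank_eq_nat_card_basis (basisRestrictSupport ℂ {d : Var m →₀ ℕ | Finsupp.weight (bideg m) d = (a, b)}),
    Nat.card_congr (expEquiv m a b), Nat.card_prod, Nat.card_eq_fintype_card, Nat.card_eq_fintype_card,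
    Fintype.card_coe, Fintype.card_coe, Finset.Nat.card_antidiagonal, card_anti]

/-- the polynomial `(X + 1) ... (X + r)` -/
noncomputable def pr (r : ℕ) : Polynomial ℝ := ∏ i ∈ Finset.range r, (Polynomial.X + Polynomial.C ((i : ℝ) + 1))

lemma pr_monic (r : ℕ) : (pr r).Monic :=
  Polynomial.monic_prod_of_monic _ _ (fun _ _ => Polynomial.monic_X_add_C _)

lemma pr_deg (r : ℕ) : (pr r).natDegree = r := by
  rw [pr, Polynomial.natDegree_prod_of_monic _ _ (fun _ _ => Polynomial.monic_X_add_C _)]
  simp_rw [Polynomial.natDegree_X_add_C]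
  simp

lemma pr_eval (r b : ℕ) : (pr r).eval (b : ℝ) = r.factorial * ((b + r).choose r : ℕ) := by
  have h1 := Nat.ascFactorial_eq_factorial_mul_choose b r
  rw [← Nat.cast_mul, ← h1, Nat.ascFactorial_eq_prod_range, pr, Polynomial.eval_prod, Nat.cast_prod]
  refine Finset.prod_congr rfl (fun i _ => ?_)
  simp
  ring

/-- a polynomial in the second variable -/
noncomputable def up (q : Polynomial ℝ) : MvPolynomial (Fin 2) ℝ := Polynomial.aeval (X 1) q

lemma up_deg (q : Polynomial ℝ) : (up q).totalDegree ≤ q.natDegree := by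
  rw [up, Polynomial.aeval_eq_sum_range]
  apply totalDegree_finsetSum_le
  intro i hi
  rw [Finset.mem_range] at hi
  refine (totalDegree_smul_le _ _).trans ((totalDegree_pow _ _).trans ?_)
  rw [totalDegree_X]
  omega

lemma up_eval (q : Polynomial ℝ) (a b : ℝ) : eval ![a, b] (up q) = q.eval b := by
  rw [up, Polynomial.aeval_eq_sum_range, map_sum, Polynomial.eval_eq_sum_range]
  refine Finset.sum_congr rfl (fun i _ => ?_)
  simp [smul_eval]

lemma leading_lin (h : r ≤ n) : Leading (hilb (lin n r).ideal) (r + 1) 1 0 := by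
  refine ⟨C ((r.factorial : ℝ)⁻¹) * (X 0 * up (pr r - Polynomial.X ^ r) + up (pr r)), ?_, 0, ?_⟩
  · apply Nat.lt_succ_of_le
    refine (totalDegree_mul _ _).trans ?_
    rw [totalDegree_C, zero_add]
    refine (totalDegree_add _ _).trans (max_le ?_ ((up_deg _).trans (pr_deg r).le))
    by_cases h0 : pr r - Polynomial.X ^ r = 0
    · rw [h0]; simp [up]
    · have h1 : (pr r - Polynomial.X ^ r).natDegree < r := by
        have h2 : (pr r - Polynomial.X ^ r).degree < (pr r).degree := by
          apply Polynomial.degree_sub_lt_left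
          · rw [Polynomial.degree_X_pow, Polynomial.degree_eq_natDegree (pr_monic r).ne_zero, pr_deg]
          · exact (pr_monic r).ne_zero
          · rw [(pr_monic r).leadingCoeff, Polynomial.leadingCoeff_X_pow]
        rw [Polynomial.degree_eq_natDegree (pr_monic r).ne_zero, pr_deg] at h2
        exact (Polynomial.natDegree_lt_iff_degree_lt h0).2 h2
      refine (totalDegree_mul _ _).trans ?_
      rw [totalDegree_X]
      have := up_deg (pr r - Polynomial.X ^ r)
      omega
  · intro a b _ _
    rw [hilb_lin h, finrank_piece]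
    have h1 : ((b + r).choose r : ℝ) = (pr r).eval (b : ℝ) / r.factorial := by
      rw [pr_eval]
      have : (r.factorial : ℝ) ≠ 0 := by exact_mod_cast (Nat.factorial_pos r).ne'
      field_simp
    rw [Nat.cast_mul, h1, map_mul, map_add, map_mul, up_eval, up_eval]
    simp
    have : (r.factorial : ℝ) ≠ 0 := by exact_mod_cast (Nat.factorial_pos r).ne'
    field_simp
    ring

end Pool.Agent.U933.EC
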