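import Pool.Agent.U933.EC.C

set_option autoImplicit false

/-! For general `F` the coefficients of `F` with respect to `x` have no common zero. -/

namespace Pool.Agent.U933.EC

open MvPolynomial Finset

variable {n : ℕ}

/-- a monomial in `y` -/
noncomputable def Ymon (g : Fin (n + 1) → ℕ) : S n := ∏ j, X (Sum.inr j) ^ g j

lemma Ymon_add (g h : Fin (n + 1) → ℕ) : Ymon (g + h) = Ymon g * Ymon h := by
  rw [Ymon, Ymon, Ymon, ← prod_mul_distrib]
  exact prod_congr rfl (fun j _ => by rw [Pi.add_apply, pow_add])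

lemma toPoly_Ymon (g : Fin (n + 1) → ℕ) : toPoly (Ymon g) = Polynomial.C (Ymon g) := by
  rw [Ymon, map_prod, map_prod]
  exact prod_congr rfl (fun j _ => by rw [map_pow, toPoly_y, map_pow])

lemma coeff_toPoly {F : S n} {m e : ℕ} (hF : IsForm F m e) {i : ℕ} (hi : i ≤ m) :
    (toPoly F).coeff i = ∑ g ∈ piAntidiag (univ : Finset (Fin (n + 1))) e, C (F.coeff (idx (m - i) i g)) * Ymon g := by
  refine IsWeightedHomogeneous.induction_on (motive := fun F _ => (toPoly F).coeff i =
    ∑ g ∈ piAntidiag (univ : Finset (Fin (n + 1))) e, C (F.coeff (idx (m - i) i g)) * Ymon g) ?_ ?_ ?_ hF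
  · simp
  · intro p q _ _ h1 h2
    rw [map_add, Polynomial.coeff_add, h1, h2, ← sum_add_distrib]
    refine sum_congr rfl (fun g _ => ?_)
    rw [coeff_add, C_add, add_mul]
  · intro d r hd
    rw [weight_eq, Prod.mk.injEq] at hd
    have h1 : (toPoly (monomial d r : S n)).coeff i =
        if i = d (Sum.inl 1) then C r * Ymon (fun j => d (Sum.inr j)) else 0 := by
      rw [monomial_form, map_mul, map_mul, map_mul, map_pow, map_pow, toPoly_x0, toPoly_x1, toPoly_C]
      have h2 := toPoly_Ymon (fun j => d (Sum.inr j))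
      rw [Ymon] at h2
      rw [h2, one_pow, one_mul, mul_comm (Polynomial.X ^ _), ← mul_assoc, ← Polynomial.C_mul,
        Polynomial.coeff_C_mul_X_pow]
      rfl
    rw [h1]
    have h3 : ∀ g ∈ piAntidiag (univ : Finset (Fin (n + 1))) e,
        C ((monomial d r : S n).coeff (idx (m - i) i g)) * Ymon g =
        if (i = d (Sum.inl 1) ∧ g = fun j => d (Sum.inr j)) then C r * Ymon (fun j => d (Sum.inr j)) else 0 := by
      intro g _
      rw [coeff_monomial]
      by_cases h4 : i = d (Sum.inl 1) ∧ g = fun j => d (Sum.inr j)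
      · have h5 : d = idx (m - i) i g := by
          rw [← idx_eq d]
          obtain ⟨h5, h6⟩ := h4
          rw [h6, h5]
          congr 1
          omega
        rw [if_pos h5, if_pos h4, h4.2]
      · have h5 : ¬ d = idx (m - i) i g := by
          intro h5
          apply h4
          constructor
          · rw [h5]; rfl
          · rw [h5]; rfl
        rw [if_neg h5, if_neg h4, C_0, zero_mul]
    rw [sum_congr rfl h3]
    by_cases h4 : i = d (Sum.inl 1)
    · have hmem : (fun j => d (Sum.inr j)) ∈ piAntidiag (univ : Finset (Fin (n + 1))) e := by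
        rw [mem_piAntidiag]
        exact ⟨hd.2, fun _ _ => mem_univ _⟩
      simp only [h4, true_and]
      rw [sum_ite_eq', if_pos hmem]
      simp
    · simp [h4]

/-- the exponents of the monomials of degree `N` -/
abbrev Ix (n N : ℕ) : Type := ↥(piAntidiag (univ : Finset (Fin (n + 1))) N)

lemma exists_big (e : ℕ) (_he : 1 ≤ e) (μ : Ix n ((n + 1) * e)) : ∃ i, e ≤ μ.1 i := by
  by_contra h
  push Not at h
  have h1 := (mem_piAntidiag.1 μ.2).1
  have h2 : ∑ i, μ.1 i < ∑ _i : Fin (n + 1), e := sum_lt_sum_of_nonempty univ_nonempty (fun i _ => h i)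
  rw [sum_const, card_univ, Fintype.card_fin, smul_eq_mul] at h2
  change ∑ i, μ.1 i = _ at h1
  omega

noncomputable def pick (e : ℕ) (he : 1 ≤ e) (μ : Ix n ((n + 1) * e)) : Fin (n + 1) := (exists_big e he μ).choose

lemma pick_spec (e : ℕ) (he : 1 ≤ e) (μ : Ix n ((n + 1) * e)) : e ≤ μ.1 (pick e he μ) := (exists_big e he μ).choose_spec

/-- `e` times the unit vector -/
def unit (e : ℕ) (i : Fin (n + 1)) : Fin (n + 1) → ℕ := fun j => if j = i then e else 0

/-- the complementary exponent -/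
noncomputable def low (e : ℕ) (he : 1 ≤ e) (μ : Ix n ((n + 1) * e)) : Fin (n + 1) → ℕ :=
  fun j => μ.1 j - unit e (pick e he μ) j

lemma low_add (e : ℕ) (he : 1 ≤ e) (μ : Ix n ((n + 1) * e)) : low e he μ + unit e (pick e he μ) = μ.1 := by
  ext j
  have := pick_spec e he μ
  simp only [low, unit, Pi.add_apply]
  split_ifs with h
  · rw [h]; omega
  · simp

lemma sum_unit (e : ℕ) (i : Fin (n + 1)) : ∑ j, unit e i j = e := by
  simp [unit]

lemma sum_low (e : ℕ) (he : 1 ≤ e) (μ : Ix n ((n + 1) * e)) : ∑ j, low e he μ j + e = (n + 1) * e := by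
  have h1 := (mem_piAntidiag.1 μ.2).1
  change ∑ i, μ.1 i = _ at h1
  rw [← low_add e he μ] at h1
  simp only [Pi.add_apply] at h1
  rw [sum_add_distrib, sum_unit] at h1
  exact h1

open Classical in
/-- the entries of the matrix, as polynomials in the coefficients of `F` -/
noncomputable def entry (m e : ℕ) (he : 1 ≤ e) (ν μ : Ix n ((n + 1) * e)) : MvPolynomial (Var n →₀ ℕ) ℂ :=
  if low e he μ ≤ ν.1 then X (idx (m - (pick e he μ : ℕ)) (pick e he μ) (ν.1 - low e he μ)) else 0

/-- the determinant -/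
noncomputable def Phi (n m e : ℕ) (he : 1 ≤ e) : MvPolynomial (Var n →₀ ℕ) ℂ :=
  (Matrix.of (entry (n := n) m e he)).det

/-- the matrix of `F` -/
noncomputable def Mx (m e : ℕ) (he : 1 ≤ e) (F : S n) : Matrix (Ix n ((n + 1) * e)) (Ix n ((n + 1) * e)) ℂ :=
  Matrix.of fun ν μ => eval (fun d => F.coeff d) (entry m e he ν μ)

lemma eval_Phi (m e : ℕ) (he : 1 ≤ e) (F : S n) : eval (fun d => F.coeff d) (Phi n m e he) = (Mx m e he F).det := by
  rw [Phi, RingHom.map_det]
  rfl

lemma prod_eq {F : S n} {m e : ℕ} (he : 1 ≤ e) (hm : n ≤ m) (hF : IsForm F m e) (μ : Ix n ((n + 1) * e)) :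
    Ymon (low e he μ) * (toPoly F).coeff (pick e he μ : ℕ) = ∑ ν, C (Mx m e he F ν μ) * Ymon ν.1 := by
  classical
  have hi : (pick e he μ : ℕ) ≤ m := by have := (pick e he μ).2; omega
  rw [coeff_toPoly hF hi, mul_sum]
  have h1 : ∀ ν : Ix n ((n + 1) * e), C (Mx m e he F ν μ) * Ymon ν.1 =
      if low e he μ ≤ ν.1 then C (F.coeff (idx (m - (pick e he μ : ℕ)) (pick e he μ) (ν.1 - low e he μ))) * Ymon ν.1
      else 0 := by
    intro ν
    rw [Mx, Matrix.of_apply, entry]
    split_ifs with h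
    · rw [eval_X]
    · rw [map_zero, C_0, zero_mul]
  rw [sum_congr rfl (fun ν _ => h1 ν), ← sum_filter]
  symm
  refine sum_bij' (fun ν _ => ν.1 - low e he μ) (fun g hg => ⟨low e he μ + g, ?_⟩) ?_ ?_ ?_ ?_ ?_
  · rw [mem_piAntidiag] at hg ⊢
    refine ⟨?_, fun _ _ => mem_univ _⟩
    have h2 : ∑ j, g j = e := hg.1
    have h3 := sum_low e he μ
    change ∑ j, (low e he μ j + g j) = _
    rw [sum_add_distrib, h2, h3]
  · intro ν hν
    rw [mem_filter] at hν
    rw [mem_piAntidiag]
    refine ⟨?_, fun _ _ => mem_univ _⟩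
    have h2 : ∑ j, ν.1 j = (n + 1) * e := (mem_piAntidiag.1 ν.2).1
    have h3 := sum_low e he μ
    have h4 : ∑ j, (ν.1 j - low e he μ j) + ∑ j, low e he μ j = ∑ j, ν.1 j := by
      rw [← sum_add_distrib]
      exact sum_congr rfl (fun j _ => Nat.sub_add_cancel (hν.2 j))
    change ∑ j, (ν.1 j - low e he μ j) = e
    omega
  · intro g hg
    rw [mem_filter]
    refine ⟨mem_univ _, ?_⟩
    intro j
    simp
  · intro ν hν
    rw [mem_filter] at hν
    apply Subtype.ext
    ext j
    have h9 : low e he μ j ≤ ν.1 j := hν.2 j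
    simp only [Pi.add_apply, Pi.sub_apply]
    omega
  · intro g hg
    ext j
    simp
  · intro ν hν
    rw [mem_filter] at hν
    have h5 : ν.1 = low e he μ + (ν.1 - low e he μ) := by
      ext j
      have h9 : low e he μ j ≤ ν.1 j := hν.2 j
      simp only [Pi.add_apply, Pi.sub_apply]
      omega
    conv_lhs => rw [h5, Ymon_add]
    have h6 : low e he μ + (ν.1 - low e he μ) - low e he μ = ν.1 - low e he μ := by
      ext j; simp
    rw [h6]
    ring

lemma mem_of_det {F : S n} {m e : ℕ} (he : 1 ≤ e) (hm : n ≤ m) (hF : IsForm F m e)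
    (h : eval (fun d => F.coeff d) (Phi n m e he) ≠ 0) (j : Fin (n + 1)) :
    ∃ N : ℕ, (X (Sum.inr j) : S n) ^ N ∈ Ideal.span (Set.range fun i => (toPoly F).coeff i) := by
  classical
  rw [eval_Phi] at h
  refine ⟨(n + 1) * e, ?_⟩
  have hν : unit ((n + 1) * e) j ∈ piAntidiag (univ : Finset (Fin (n + 1))) ((n + 1) * e) := by
    rw [mem_piAntidiag]
    exact ⟨sum_unit _ _, fun _ _ => mem_univ _⟩
  set ν₀ : Ix n ((n + 1) * e) := ⟨unit ((n + 1) * e) j, hν⟩ with hν₀
  have hY : (X (Sum.inr j) : S n) ^ ((n + 1) * e) = Ymon ν₀.1 := by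
    rw [Ymon, hν₀]
    simp only [unit]
    rw [Fintype.prod_eq_single j]
    · simp
    · intro i hi
      simp [hi]
  set M := Mx m e he F with hM
  have hMM : M * M⁻¹ = 1 := Matrix.mul_nonsing_inv _ (isUnit_iff_ne_zero.2 h)
  have hkey : Ymon ν₀.1 = ∑ μ, C (M⁻¹ μ ν₀) * (Ymon (low e he μ) * (toPoly F).coeff (pick e he μ : ℕ)) := by
    have h1 : ∀ μ, C (M⁻¹ μ ν₀) * (Ymon (low e he μ) * (toPoly F).coeff (pick e he μ : ℕ)) =
        ∑ ν, C (M ν μ * M⁻¹ μ ν₀) * Ymon ν.1 := by
      intro μ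
      rw [prod_eq he hm hF μ, mul_sum]
      refine sum_congr rfl (fun ν _ => ?_)
      rw [C_mul]; ring
    rw [sum_congr rfl (fun μ _ => h1 μ), sum_comm]
    have h2 : ∀ ν, ∑ μ, C (M ν μ * M⁻¹ μ ν₀) * Ymon ν.1 = if ν = ν₀ then Ymon ν.1 else 0 := by
      intro ν
      rw [← sum_mul, ← map_sum]
      have h3 : ∑ μ, M ν μ * M⁻¹ μ ν₀ = (1 : Matrix (Ix n ((n + 1) * e)) (Ix n ((n + 1) * e)) ℂ) ν ν₀ := by
        rw [← hMM, Matrix.mul_apply]
      rw [h3, Matrix.one_apply]
      split_ifs
      · simp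
      · simp
    rw [sum_congr rfl (fun ν _ => h2 ν), sum_ite_eq', if_pos (mem_univ _)]
  rw [hY, hkey]
  refine Ideal.sum_mem _ (fun μ _ => ?_)
  refine Ideal.mul_mem_left _ _ (Ideal.mul_mem_left _ _ (Ideal.subset_span ⟨_, rfl⟩))

/-- the special form -/
noncomputable def F0 (n m e : ℕ) : S n := ∑ i : Fin (n + 1), monomial (idx (m - (i : ℕ)) i (unit e i)) 1

lemma form_F0 {m e : ℕ} (hm : n ≤ m) : IsForm (F0 n m e) m e := by
  apply form_sum
  intro i _
  apply isWeightedHomogeneous_monomial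
  rw [weight_eq]
  have h1 : m - (i : ℕ) + i = m := by have := i.2; omega
  simp only [idx_0, idx_1, idx_y, sum_unit, h1]

lemma coeff_F0 {m e : ℕ} (i : Fin (n + 1)) (g : Fin (n + 1) → ℕ) :
    (F0 n m e).coeff (idx (m - (i : ℕ)) i g) = if g = unit e i then 1 else 0 := by
  classical
  rw [F0, coeff_sum]
  have h1 : ∀ k : Fin (n + 1), (monomial (idx (m - (k : ℕ)) k (unit e k)) (1 : ℂ) : S n).coeff
      (idx (m - (i : ℕ)) i g) = if k = i then (if g = unit e i then 1 else 0) else 0 := by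
    intro k
    rw [coeff_monomial]
    by_cases hk : k = i
    · subst hk
      rw [if_pos rfl]
      by_cases hg : g = unit e k
      · rw [if_pos hg, hg, if_pos rfl]
      · rw [if_neg hg, if_neg]
        intro h
        apply hg
        have h2 := fun j => DFunLike.congr_fun h (Sum.inr j)
        ext j
        exact (h2 j).symm
    · rw [if_neg hk, if_neg]
      intro h
      apply hk
      have h2 := DFunLike.congr_fun h (Sum.inl 1)
      exact Fin.ext h2
  rw [sum_congr rfl (fun k _ => h1 k), sum_ite_eq', if_pos (mem_univ _)]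

lemma Mx_F0 {m e : ℕ} (he : 1 ≤ e) : Mx m e he (F0 n m e) = 1 := by
  classical
  ext ν μ
  rw [Mx, Matrix.of_apply, entry, Matrix.one_apply]
  by_cases h : ν = μ
  · subst h
    have h1 : low e he ν ≤ ν.1 := by
      intro j
      simp only [low]
      omega
    have h2 : ν.1 - low e he ν = unit e (pick e he ν) := by
      have h3 := low_add e he ν
      ext j
      have h4 := congrFun h3 j
      simp only [Pi.add_apply, Pi.sub_apply] at h4 ⊢
      omega
    rw [if_pos h1, if_pos rfl, eval_X, coeff_F0, if_pos h2]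
  · rw [if_neg h]
    split_ifs with h1
    · rw [eval_X, coeff_F0, if_neg]
      intro h2
      apply h
      apply Subtype.ext
      rw [← low_add e he μ, ← h2]
      ext j
      have h9 : low e he μ j ≤ ν.1 j := h1 j
      simp only [Pi.add_apply, Pi.sub_apply]
      omega
    · rw [map_zero]

lemma eval_F0 {m e : ℕ} (he : 1 ≤ e) : eval (fun d => (F0 n m e).coeff d) (Phi n m e he) ≠ 0 := by
  rw [eval_Phi, Mx_F0, Matrix.det_one]
  exact one_ne_zero

end Pool.Agent.U933.EC
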