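import Mathlib

set_option autoImplicit false

/-!
# Subvarieties of `P^1 × P^n`, their classes, and the effective cones

The coordinate ring of `Y = P^1 × P^n` is the bigraded ring `ℂ[x_0, x_1, y_0, ..., y_n]`.
-/

namespace Pool.Agent.U933.EC

open MvPolynomial

/-- The variables `x_0, x_1` and `y_0, ..., y_n`. -/
abbrev Var (n : ℕ) : Type := Fin 2 ⊕ Fin (n + 1)

/-- The bihomogeneous coordinate ring of `P^1 × P^n`. -/
abbrev S (n : ℕ) : Type := MvPolynomial (Var n) ℂ

/-- The bidegrees of the variables: `(1, 0)` for the `x_i` and `(0, 1)` for the `y_j`. -/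
def bideg (n : ℕ) : Var n → ℕ × ℕ := Sum.elim (fun _ => (1, 0)) (fun _ => (0, 1))

/-- `F` is bihomogeneous of bidegree `(a, b)` (or zero): a section of the line bundle `O(a, b)`. -/
def IsForm {n : ℕ} (F : S n) (a b : ℕ) : Prop := IsWeightedHomogeneous (bideg n) F (a, b)

/-- The space of the forms of bidegree `(a, b)`. -/
noncomputable def piece (n a b : ℕ) : Submodule ℂ (S n) := weightedHomogeneousSubmodule ℂ (bideg n) (a, b)

/-- A subvariety (integral closed subscheme) of `P^1 × P^n`, given by its bihomogeneous prime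
ideal, which contains neither all the `x_i` nor all the `y_j`. -/
structure Subvariety (n : ℕ) where
  ideal : Ideal (S n)
  prime : ideal.IsPrime
  homogeneous : ∀ f ∈ ideal, ∀ d : ℕ × ℕ, weightedHomogeneousComponent (bideg n) d f ∈ ideal
  x_notMem : ∃ i, (X (Sum.inl i) : S n) ∉ ideal
  y_notMem : ∃ j, (X (Sum.inr j) : S n) ∉ ideal

/-- The bigraded Hilbert function: the dimension of the image of the forms of bidegree `(a, b)` in the
coordinate ring `S / P`. -/
noncomputable def hilb {n : ℕ} (P : Ideal (S n)) (a b : ℕ) : ℕ :=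
  Module.finrank ℂ ((piece n a b).map (Ideal.Quotient.mkₐ ℂ P).toLinearMap)

/-- For large `a`, `b` the function `H` is a polynomial, which is the sum of
`u a b ^ (k - 1) / (k - 1)! + v b ^ k / k!` and of a polynomial of total degree less than `k`. -/
def Leading (H : ℕ → ℕ → ℕ) (k : ℕ) (u v : ℝ) : Prop :=
  ∃ Q : MvPolynomial (Fin 2) ℝ, Q.totalDegree < k ∧ ∃ N : ℕ, ∀ a b : ℕ, N ≤ a → N ≤ b →
    (H a b : ℝ) = u * (a * (b : ℝ) ^ (k - 1) / (k - 1).factorial) + v * ((b : ℝ) ^ k / k.factorial) +
      eval ![(a : ℝ), (b : ℝ)] Q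

/-- `Z` has dimension `k`, and its class is `c = (Z · H₁ · H₂ ^ (k - 1), Z · H₂ ^ k)`, where `H₁`, `H₂`
are the classes of `O(1, 0)`, `O(0, 1)`: the Hilbert polynomial of `Z` has the leading part
`(a H₁ + b H₂) ^ k · Z / k! = c₁ a b ^ (k - 1) / (k - 1)! + c₂ b ^ k / k!`. These two numbers are the
coordinates of the class of `Z` in the space `N_k(P^1 × P^n) = ℝ²`, `1 ≤ k ≤ n`. -/
def HasClass {n : ℕ} (Z : Subvariety n) (k : ℕ) (c : ℝ × ℝ) : Prop :=
  c ≠ 0 ∧ Leading (hilb Z.ideal) k c.1 c.2

/-- The closed convex cone in `N_k(P^1 × P^n) = ℝ²` generated by the classes of the subvarieties of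
dimension `k` on which `F` vanishes. For `F = 0` this is the effective cone `Eff_k(P^1 × P^n)`; for a
form `F` with the zero set `X` and the inclusion `i : X → P^1 × P^n` it contains the image
`i_*(Eff_k(X))` of the effective cone of `X`, because `i_*` is linear. -/
noncomputable def Eff (n k : ℕ) (F : S n) : Set (ℝ × ℝ) :=
  closure (Submodule.span NNReal {c : ℝ × ℝ | ∃ Z : Subvariety n, F ∈ Z.ideal ∧ HasClass Z k c} :
    Set (ℝ × ℝ))

end Pool.Agent.U933.EC
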