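import Pool.Agent.U933.EC.D

set_option autoImplicit false

/-! The effective cones. -/

namespace Pool.Agent.U933.EC

open MvPolynomial

variable {n : ℕ}

/-- the inequality for the classes of the subvarieties of a hypersurface -/
lemma class_le {F : S n} {m e : ℕ} (hm : 1 ≤ m) (hF : IsForm F m e)
    (hF' : ∀ j, ∃ N : ℕ, (X (Sum.inr j) : S n) ^ N ∈ Ideal.span (Set.range fun i => (toPoly F).coeff i))
    (Z : Subvariety n) (hZ : F ∈ Z.ideal) {k : ℕ} (hk : 1 ≤ k) {c : ℝ × ℝ} (hc : HasClass Z k c) :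
    c.1 ≤ e * c.2 := by
  obtain ⟨s, hs1, hs2⟩ := exists_s Z.prime Z.x_notMem Z.y_notMem hF'
  exact leading_le hk hc.2 (fun a b ha => hilb_le Z.prime hF hm hZ s hs1 hs2 ha)

lemma eff_le {F : S n} {m e : ℕ} (hm : 1 ≤ m) (hF : IsForm F m e)
    (hF' : ∀ j, ∃ N : ℕ, (X (Sum.inr j) : S n) ^ N ∈ Ideal.span (Set.range fun i => (toPoly F).coeff i))
    {k : ℕ} (hk : 1 ≤ k) : Eff n k F ⊆ {c | c.1 ≤ (e : ℝ) * c.2} := by
  have hclosed : IsClosed {c : ℝ × ℝ | c.1 ≤ e * c.2} :=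
    isClosed_le continuous_fst (continuous_const.mul continuous_snd)
  apply closure_minimal _ hclosed
  intro c hc
  change c.1 ≤ (e : ℝ) * c.2
  refine Submodule.span_induction (p := fun (c : ℝ × ℝ) _ => c.1 ≤ (e : ℝ) * c.2) ?_ ?_ ?_ ?_ hc
  · rintro x ⟨Z, hZ, hx⟩
    exact class_le hm hF hF' Z hZ hk hx
  · simp
  · intro x y _ _ hx hy
    simp only [Prod.fst_add, Prod.snd_add]
    linarith
  · intro r x _ hx
    have h1 : (r • x).1 = (r : ℝ) * x.1 := rfl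
    have h2 : (r • x).2 = (r : ℝ) * x.2 := rfl
    rw [h1, h2]
    have := mul_le_mul_of_nonneg_left hx r.2
    calc (r : ℝ) * x.1 ≤ (r : ℝ) * (e * x.2) := this
      _ = e * ((r : ℝ) * x.2) := by ring

lemma mem_eff {k : ℕ} (hk : 1 ≤ k) (hkn : k ≤ n + 1) : ((1 : ℝ), (0 : ℝ)) ∈ Eff n k 0 := by
  apply subset_closure
  apply Submodule.subset_span
  refine ⟨lin n (k - 1), Ideal.zero_mem _, by simp, ?_⟩
  have := leading_lin (n := n) (r := k - 1) (by omega)
  rwa [Nat.sub_add_cancel hk] at this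

end Pool.Agent.U933.EC
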