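import Pool.Agent.U933.EC.E

set_option autoImplicit false

/-! The determinant is homogeneous. -/

namespace Pool.Agent.U933.EC

open MvPolynomial

variable {n : ℕ}

lemma det_homog {ι σ : Type} [Fintype ι] [DecidableEq ι] (M : Matrix ι ι (MvPolynomial σ ℂ))
    (hM : ∀ i j, (M i j).IsHomogeneous 1) : M.det.IsHomogeneous (Fintype.card ι) := by
  rw [Matrix.det_apply]
  apply IsHomogeneous.sum
  intro τ _
  have h1 : (∏ i, M (τ i) i).IsHomogeneous (Fintype.card ι) := by
    have := IsHomogeneous.prod Finset.univ (fun i => M (τ i) i) (fun _ => 1) (fun i _ => hM _ _)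
    simpa using this
  rcases Int.units_eq_one_or (Equiv.Perm.sign τ) with h | h
  · rw [h, one_smul]; exact h1
  · rw [h, Units.neg_smul, one_smul]
    exact (homogeneousSubmodule σ ℂ _).neg_mem h1

lemma phi_homog (n m e : ℕ) (he : 1 ≤ e) :
    (Phi n m e he).IsHomogeneous (Fintype.card (Ix n ((n + 1) * e))) := by
  classical
  apply det_homog
  intro ν μ
  rw [Matrix.of_apply, entry]
  split_ifs
  · exact isHomogeneous_X _ _
  · exact isHomogeneous_zero _ _ _

end Pool.Agent.U933.EC
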